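import Mathlib

/-!
Part MK-E of the project for MP_07db0e_nt: Laplace transform, contour shift and Parseval.
-/

set_option autoImplicit false

namespace Pool.Agent.R273.MK

set_option linter.unusedSectionVars false

open MeasureTheory Filter Topology Complex FourierTransform
open scoped Real

lemma parseval (f : ℝ → ℂ) (hc : Continuous f) (hf : Integrable f) (hF : Integrable (𝓕 f)) :
    ∫ x, ‖f x‖ ^ 2 = ∫ x, ‖𝓕 f x‖ ^ 2 := by
  have hinv := hc.fourierInv_fourier_eq hf hF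
  have h := VectorFourier.integral_sesq_fourierIntegral_eq_neg_flip (μ := volume) (ν := volume)
    (L := innerₗ ℝ) (f := f) (g := 𝓕 f) (innerSL ℂ) Real.continuous_fourierChar
    (by exact (innerSL ℝ).continuous₂) hf hF
  rw [flip_innerₗ] at h
  have e1 : ∀ ξ : ℝ, (innerSL ℂ) (VectorFourier.fourierIntegral Real.fourierChar volume (innerₗ ℝ) f ξ)
      (𝓕 f ξ) = ((‖𝓕 f ξ‖ ^ 2 : ℝ) : ℂ) := by
    intro ξ
    have : VectorFourier.fourierIntegral Real.fourierChar volume (innerₗ ℝ) f ξ = 𝓕 f ξ := rfl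
    rw [this, innerSL_apply_apply, inner_self_eq_norm_sq_to_K]
    push_cast
    rfl
  have e2 : ∀ x : ℝ, (innerSL ℂ) (f x) (VectorFourier.fourierIntegral Real.fourierChar volume
      (-(innerₗ ℝ)) (𝓕 f) x) = ((‖f x‖ ^ 2 : ℝ) : ℂ) := by
    intro x
    have : VectorFourier.fourierIntegral Real.fourierChar volume (-(innerₗ ℝ)) (𝓕 f) x = 𝓕⁻ (𝓕 f) x := rfl
    rw [this, hinv, innerSL_apply_apply, inner_self_eq_norm_sq_to_K]
    push_cast
    rfl
  simp only [e1, e2] at h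
  have h' : ((∫ ξ, ‖𝓕 f ξ‖ ^ 2 : ℝ) : ℂ) = ((∫ x, ‖f x‖ ^ 2 : ℝ) : ℂ) := by
    rw [← integral_complex_ofReal, ← integral_complex_ofReal]
    exact h
  exact_mod_cast h'.symm

section line
variable (l : ℂ → ℂ) (K0 : ℝ) (hK : 0 ≤ K0) (hl : DifferentiableOn ℂ l {s | 0 < s.re})
  (hlb : ∀ s : ℂ, 0 < s.re → ‖l s‖ ≤ K0 / (1 + ‖s‖ ^ 2))
include hK hl hlb

lemma cont_line (c : ℝ) (hc : 0 < c) : Continuous (fun y : ℝ => l (c + y * I)) := by
  have : ContinuousOn l {s | 0 < s.re} := hl.continuousOn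
  refine this.comp_continuous (by fun_prop) ?_
  intro y
  simpa using hc

lemma bound_line (c : ℝ) (hc : 0 < c) (y : ℝ) : ‖l (c + y * I)‖ ≤ K0 * (1 + y ^ 2)⁻¹ := by
  refine (hlb _ (by simpa using hc)).trans ?_
  rw [div_eq_mul_inv]
  refine mul_le_mul_of_nonneg_left ?_ hK
  refine inv_anti₀ (by positivity) ?_
  have : ‖(c + y * I : ℂ)‖ ^ 2 = c ^ 2 + y ^ 2 := by
    rw [← Complex.normSq_eq_norm_sq, Complex.normSq_add_mul_I]
  rw [this]
  nlinarith [sq_nonneg c]

lemma integrable_line (c : ℝ) (hc : 0 < c) (t : ℝ) :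
    Integrable (fun y : ℝ => l (c + y * I) * cexp ((c + y * I) * t)) := by
  have hb : Integrable (fun y : ℝ => K0 * (1 + y ^ 2)⁻¹ * Real.exp (c * t)) :=
    (integrable_inv_one_add_sq.const_mul K0).mul_const _
  refine hb.mono' ?_ (Eventually.of_forall fun y => ?_)
  · exact ((cont_line l K0 hK hl hlb c hc).mul (by fun_prop)).aestronglyMeasurable
  · rw [norm_mul, Complex.norm_exp]
    have : ((c + y * I : ℂ) * t).re = c * t := by simp
    rw [this]
    exact mul_le_mul_of_nonneg_right (bound_line l K0 hK hl hlb c hc y) (Real.exp_pos _).le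

lemma shift (c : ℝ) (hc : 0 < c) (hc9 : c ≤ 9) (t : ℝ) :
    ∫ y : ℝ, l (c + y * I) * cexp ((c + y * I) * t) =
      ∫ y : ℝ, l ((9 : ℝ) + y * I) * cexp (((9 : ℝ) + y * I) * t) := by
  set f : ℂ → ℂ := fun s => l s * cexp (s * t) with hf
  have hdiff : DifferentiableOn ℂ f {s | 0 < s.re} := hl.mul (by fun_prop)
  have hrect : ∀ Y : ℝ, ((∫ x : ℝ in c..9, f (x + (-Y : ℝ) * I)) - (∫ x : ℝ in c..9, f (x + Y * I))) +
      I • (∫ y : ℝ in (-Y)..Y, f ((9 : ℝ) + y * I)) - I • (∫ y : ℝ in (-Y)..Y, f (c + y * I)) = 0 := by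
    intro Y
    have := Complex.integral_boundary_rect_eq_zero_of_differentiableOn f (⟨c, -Y⟩ : ℂ) (⟨9, Y⟩ : ℂ) ?_
    · simpa using this
    · refine hdiff.mono ?_
      intro s hs
      rw [Complex.mem_reProdIm] at hs
      have h1 := hs.1
      simp only [Set.uIcc_of_le hc9] at h1
      exact lt_of_lt_of_le hc h1.1
  -- horizontal sides
  have hhor : ∀ Y : ℝ, ‖∫ x : ℝ in c..9, f (x + Y * I)‖ ≤ K0 * Real.exp (9 * |t|) * 9 * (1 + Y ^ 2)⁻¹ := by
    intro Y
    have hb : ∀ x ∈ Set.uIoc c 9, ‖f (x + Y * I)‖ ≤ K0 * (1 + Y ^ 2)⁻¹ * Real.exp (9 * |t|) := by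
      intro x hx
      rw [Set.uIoc_of_le hc9] at hx
      have hx0 : 0 < x := hc.trans hx.1
      rw [hf]
      simp only [norm_mul, Complex.norm_exp]
      have h1 : ((x + Y * I : ℂ) * t).re = x * t := by simp
      rw [h1]
      refine mul_le_mul (bound_line l K0 hK hl hlb x hx0 Y) ?_ (Real.exp_pos _).le (by positivity)
      refine Real.exp_le_exp.2 ?_
      calc x * t ≤ x * |t| := mul_le_mul_of_nonneg_left (le_abs_self t) hx0.le
        _ ≤ 9 * |t| := mul_le_mul_of_nonneg_right hx.2 (abs_nonneg t)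
    refine (intervalIntegral.norm_integral_le_of_norm_le_const hb).trans ?_
    have : |9 - c| ≤ 9 := by rw [abs_of_nonneg (by linarith)]; linarith
    calc K0 * (1 + Y ^ 2)⁻¹ * Real.exp (9 * |t|) * |9 - c| ≤ K0 * (1 + Y ^ 2)⁻¹ * Real.exp (9 * |t|) * 9 :=
          mul_le_mul_of_nonneg_left this (by positivity)
      _ = K0 * Real.exp (9 * |t|) * 9 * (1 + Y ^ 2)⁻¹ := by ring
  have hlim0 : Tendsto (fun Y : ℝ => K0 * Real.exp (9 * |t|) * 9 * (1 + Y ^ 2)⁻¹) atTop (𝓝 0) := by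
    have : Tendsto (fun Y : ℝ => (1 + Y ^ 2)⁻¹) atTop (𝓝 0) := by
      apply tendsto_inv_atTop_zero.comp
      exact tendsto_atTop_add_const_left _ _ (tendsto_pow_atTop (by norm_num))
    simpa using this.const_mul (K0 * Real.exp (9 * |t|) * 9)
  have hh1 : Tendsto (fun Y : ℝ => ∫ x : ℝ in c..9, f (x + Y * I)) atTop (𝓝 0) :=
    squeeze_zero_norm hhor hlim0
  have hh2 : Tendsto (fun Y : ℝ => ∫ x : ℝ in c..9, f (x + (-Y : ℝ) * I)) atTop (𝓝 0) := by
    refine squeeze_zero_norm (fun Y => ?_) hlim0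
    have := hhor (-Y)
    rwa [neg_sq] at this
  have hv1 : Tendsto (fun Y : ℝ => ∫ y : ℝ in (-Y)..Y, f ((9 : ℝ) + y * I)) atTop
      (𝓝 (∫ y : ℝ, f ((9 : ℝ) + y * I))) :=
    intervalIntegral_tendsto_integral (integrable_line l K0 hK hl hlb 9 (by norm_num) t)
      tendsto_neg_atTop_atBot tendsto_id
  have hv2 : Tendsto (fun Y : ℝ => ∫ y : ℝ in (-Y)..Y, f (c + y * I)) atTop
      (𝓝 (∫ y : ℝ, f (c + y * I))) :=
    intervalIntegral_tendsto_integral (integrable_line l K0 hK hl hlb c hc t)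
      tendsto_neg_atTop_atBot tendsto_id
  have hT := ((hh2.sub hh1).add (hv1.const_smul I)).sub (hv2.const_smul I)
  have hT0 := hT.congr hrect
  have := tendsto_nhds_unique hT0 tendsto_const_nhds
  have h3 : I • (∫ y : ℝ, f ((9 : ℝ) + y * I)) = I • ∫ y : ℝ, f (c + y * I) := by
    have := this
    simp only [sub_self, zero_add] at this
    exact sub_eq_zero.1 this
  have h4 : (∫ y : ℝ, f ((9 : ℝ) + y * I)) = ∫ y : ℝ, f (c + y * I) := by
    simpa using h3
  exact h4.symm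

end line

lemma integrable_damped (G : ℝ → ℂ) (M a c : ℝ) (hac : a < c) (hGc : Continuous G)
    (hG0 : ∀ t ≤ 0, G t = 0) (hGM : ∀ t, 0 ≤ t → ‖G t‖ ≤ M * Real.exp (a * t)) :
    Integrable (fun t : ℝ => G t * cexp (-(c : ℂ) * t)) := by
  have h1 : IntegrableOn (fun t : ℝ => G t * cexp (-(c : ℂ) * t)) (Set.Ioi 0) := by
    have hb : IntegrableOn (fun t : ℝ => M * Real.exp (-(c - a) * t)) (Set.Ioi 0) :=
      (exp_neg_integrableOn_Ioi 0 (by linarith : 0 < c - a)).const_mul M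
    refine hb.mono' ?_ ?_
    · exact (hGc.mul (by fun_prop)).aestronglyMeasurable
    · refine (ae_restrict_iff' measurableSet_Ioi).2 (Eventually.of_forall fun t ht => ?_)
      have ht0 : (0 : ℝ) < t := ht
      rw [norm_mul, Complex.norm_exp]
      have h2 : (-(c : ℂ) * t).re = -c * t := by simp
      rw [h2]
      calc ‖G t‖ * Real.exp (-c * t) ≤ M * Real.exp (a * t) * Real.exp (-c * t) :=
            mul_le_mul_of_nonneg_right (hGM t ht0.le) (Real.exp_pos _).le
        _ = M * Real.exp (-(c - a) * t) := by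
            rw [mul_assoc, ← Real.exp_add]; ring_nf
  have h2 : (fun t : ℝ => G t * cexp (-(c : ℂ) * t)) =
      (Set.Ioi 0).indicator (fun t : ℝ => G t * cexp (-(c : ℂ) * t)) := by
    ext t
    by_cases ht : 0 < t
    · rw [Set.indicator_of_mem (show t ∈ Set.Ioi (0 : ℝ) from ht)]
    · rw [Set.indicator_of_notMem (show t ∉ Set.Ioi (0 : ℝ) from ht), hG0 t (not_lt.1 ht), zero_mul]
  rw [h2]
  exact (integrable_indicator_iff measurableSet_Ioi).2 h1

lemma exp_half_le : Real.exp (1 / 2) ≤ 2 := by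
  have h : Real.exp (1 / 2) * Real.exp (1 / 2) = Real.exp 1 := by
    rw [← Real.exp_add]; norm_num
  have h1 := Real.exp_one_lt_d9
  have h2 := Real.exp_pos (1 / 2)
  nlinarith

lemma integral_scaled : ∫ ξ : ℝ, (1 + (2 * π * ξ) ^ 2)⁻¹ = 1 / 2 := by
  have := Measure.integral_comp_mul_left (fun y : ℝ => (1 + y ^ 2)⁻¹) (2 * π)
  rw [this, integral_univ_inv_one_add_sq, abs_of_pos (by positivity)]
  simp
  field_simp

lemma integrable_scaled : Integrable (fun ξ : ℝ => (1 + (2 * π * ξ) ^ 2)⁻¹) :=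
  integrable_inv_one_add_sq.comp_mul_left' (by positivity)

/-- Fourier inversion, contour shift and Parseval in one statement -/
theorem lemL (G : ℝ → ℂ) (l : ℂ → ℂ) (K0 M : ℝ) (hK : 0 ≤ K0)
    (hl : DifferentiableOn ℂ l {s | 0 < s.re})
    (hlb : ∀ s : ℂ, 0 < s.re → ‖l s‖ ≤ K0 / (1 + ‖s‖ ^ 2))
    (hGc : Continuous G) (hG0 : ∀ t ≤ 0, G t = 0)
    (hGM : ∀ t, 0 ≤ t → ‖G t‖ ≤ M * Real.exp (8 * t))
    (hlap : ∀ y : ℝ, ∫ t : ℝ, G t * cexp (-((9 : ℝ) + y * I) * t) = l ((9 : ℝ) + y * I)) :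
    (∀ t, ‖G t‖ ≤ K0) ∧ ∀ R, 0 ≤ R → ∫ t in (0 : ℝ)..R, ‖G t‖ ^ 2 ≤ K0 ^ 2 := by
  have h2π : (0 : ℝ) < 2 * π := by positivity
  -- the functions on the lines
  set ψ : ℝ → ℝ → ℂ := fun c ξ => l (c + (2 * π * ξ : ℝ) * I) with hψ
  have hψc : ∀ c, 0 < c → Continuous (ψ c) := by
    intro c hc
    exact (cont_line l K0 hK hl hlb c hc).comp (continuous_const.mul continuous_id)
  have hψb : ∀ c, 0 < c → ∀ ξ, ‖ψ c ξ‖ ≤ K0 * (1 + (2 * π * ξ) ^ 2)⁻¹ := by
    intro c hc ξ
    exact bound_line l K0 hK hl hlb c hc (2 * π * ξ)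
  have hψi : ∀ c, 0 < c → Integrable (ψ c) := by
    intro c hc
    exact (integrable_scaled.const_mul K0).mono' (hψc c hc).aestronglyMeasurable
      (Eventually.of_forall (hψb c hc))
  -- G on the line 9
  have hinv9 : ∀ t : ℝ, G t * cexp (-((9 : ℝ) : ℂ) * t) = 𝓕⁻ (ψ 9) t := by
    intro t
    set f9 : ℝ → ℂ := fun t => G t * cexp (-((9 : ℝ) : ℂ) * t) with hf9
    have hf9c : Continuous f9 := hGc.mul (by fun_prop)
    have hf9i : Integrable f9 := integrable_damped G M 8 9 (by norm_num) hGc hG0 hGM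
    have hF : 𝓕 f9 = ψ 9 := by
      funext ξ
      rw [Real.fourier_real_eq_integral_exp_smul]
      rw [hψ]
      simp only
      rw [← hlap (2 * π * ξ)]
      congr 1
      funext v
      rw [hf9, smul_eq_mul, mul_comm, mul_assoc, ← Complex.exp_add]
      congr 2
      push_cast
      ring
    have := hf9c.fourierInv_fourier_eq hf9i (by rw [hF]; exact hψi 9 (by norm_num))
    rw [hF] at this
    rw [this]
  have hinvline : ∀ c : ℝ, 𝓕⁻ (ψ c) = fun t : ℝ => (1 / (2 * π) : ℝ) • ∫ y : ℝ, l (c + y * I) * cexp ((y * I) * t) := by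
    intro c
    funext t
    rw [Real.fourierInv_eq']
    have := Measure.integral_comp_mul_left (fun y : ℝ => l (c + y * I) * cexp ((y * I) * t)) (2 * π)
    rw [show (1 / (2 * π) : ℝ) = |(2 * π)⁻¹| by rw [abs_of_pos (by positivity)]; ring, ← this]
    congr 1
    funext ξ
    rw [hψ, smul_eq_mul, mul_comm]
    congr 2
    simp
    ring
  have hGline : ∀ c : ℝ, 0 < c → c ≤ 9 → ∀ t : ℝ, G t * cexp (-(c : ℂ) * t) = 𝓕⁻ (ψ c) t := by
    intro c hc hc9 t
    have h9 := hinv9 t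
    have hs := shift l K0 hK hl hlb c hc hc9 t
    have e : ∀ c : ℝ, ∫ y : ℝ, l (c + y * I) * cexp ((c + y * I) * t) =
        cexp (c * t) * ∫ y : ℝ, l (c + y * I) * cexp ((y * I) * t) := by
      intro c
      rw [← integral_const_mul]
      congr 1
      funext y
      rw [add_mul, Complex.exp_add]
      ring
    rw [e c, e 9] at hs
    rw [hinvline] at h9 ⊢
    simp only at h9 ⊢
    have h10 : G t = cexp (((9 : ℝ) : ℂ) * t) * ((1 / (2 * π) : ℝ) • ∫ y : ℝ, l ((9 : ℝ) + y * I) * cexp ((y * I) * t)) := by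
      rw [← h9, mul_comm (G t), ← mul_assoc, ← Complex.exp_add]
      simp
    rw [h10, mul_smul_comm, ← hs, ← mul_smul_comm]
    rw [mul_right_comm, ← Complex.exp_add]
    simp
  have hGb : ∀ t, ‖G t‖ ≤ K0 := by
    intro t
    by_cases ht : t ≤ 0
    · rw [hG0 t ht]; simpa using hK
    push Not at ht
    set c : ℝ := 1 / (2 * t + 2) with hc
    have hc0 : 0 < c := by positivity
    have hc9 : c ≤ 9 := by
      rw [hc, div_le_iff₀ (by positivity)]
      linarith
    have hct : c * t ≤ 1 / 2 := by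
      rw [hc, div_mul_eq_mul_div, div_le_div_iff₀ (by positivity) (by norm_num)]
      linarith
    have h1 := hGline c hc0 hc9 t
    have h2 : ‖𝓕⁻ (ψ c) t‖ ≤ K0 * (1 / 2) := by
      rw [Real.fourierInv_eq']
      refine (norm_integral_le_integral_norm _).trans ?_
      rw [← integral_scaled, ← integral_const_mul]
      refine integral_mono_of_nonneg (Eventually.of_forall fun _ => norm_nonneg _)
        (integrable_scaled.const_mul K0) (Eventually.of_forall fun ξ => ?_)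
      simp only
      rw [norm_smul, Complex.norm_exp_ofReal_mul_I, one_mul]
      exact hψb c hc0 ξ
    rw [← h1, norm_mul, Complex.norm_exp] at h2
    have h3 : (-(c : ℂ) * t).re = -(c * t) := by simp
    rw [h3] at h2
    have h4 : ‖G t‖ = ‖G t‖ * Real.exp (-(c * t)) * Real.exp (c * t) := by
      rw [mul_assoc, ← Real.exp_add]; simp
    rw [h4]
    calc ‖G t‖ * Real.exp (-(c * t)) * Real.exp (c * t) ≤ K0 * (1 / 2) * 2 := by
          refine mul_le_mul h2 ?_ (Real.exp_pos _).le (by positivity)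
          exact (Real.exp_le_exp.2 hct).trans exp_half_le
      _ = K0 := by ring
  refine ⟨hGb, ?_⟩
  intro R hR
  set c : ℝ := 1 / (4 * R + 4) with hc
  have hc0 : 0 < c := by positivity
  have hc9 : c ≤ 9 := by
    rw [hc, div_le_iff₀ (by positivity)]
    linarith
  have hcR : 2 * c * R ≤ 1 / 2 := by
    rw [hc, mul_one_div, div_mul_eq_mul_div, div_le_div_iff₀ (by positivity) (by norm_num)]
    linarith
  set fc : ℝ → ℂ := fun t => G t * cexp (-(c : ℂ) * t) with hfc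
  have hfcc : Continuous fc := hGc.mul (by fun_prop)
  have hfci : Integrable fc := integrable_damped G K0 0 c hc0 hGc hG0 (fun t _ => by simpa using hGb t)
  have hfeq : 𝓕⁻ (ψ c) = fc := by
    funext t
    exact (hGline c hc0 hc9 t).symm
  have hFψi : Integrable (𝓕 (ψ c)) := by
    have : 𝓕 (ψ c) = fun t => fc (-t) := by
      funext t
      have h := Real.fourierInv_eq_fourier_neg (ψ c) (-t)
      rw [neg_neg] at h
      rw [← h, hfeq]
    rw [this]
    exact hfci.comp_neg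
  have hFf : 𝓕 fc = ψ c := by
    rw [← hfeq]
    exact (hψc c hc0).fourier_fourierInv_eq (hψi c hc0) hFψi
  have hP := parseval fc hfcc hfci (by rw [hFf]; exact hψi c hc0)
  rw [hFf] at hP
  have hψ2 : ∫ ξ, ‖ψ c ξ‖ ^ 2 ≤ K0 ^ 2 * (1 / 2) := by
    rw [← integral_scaled, ← integral_const_mul]
    refine integral_mono_of_nonneg (Eventually.of_forall fun _ => by positivity)
      (integrable_scaled.const_mul _) (Eventually.of_forall fun ξ => ?_)
    simp only
    have h1 := hψb c hc0 ξ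
    have h2 : (1 + (2 * π * ξ) ^ 2)⁻¹ ≤ 1 := inv_le_one_of_one_le₀ (by nlinarith [sq_nonneg (2 * π * ξ)])
    have h3 : 0 < (1 + (2 * π * ξ) ^ 2)⁻¹ := by positivity
    calc ‖ψ c ξ‖ ^ 2 ≤ (K0 * (1 + (2 * π * ξ) ^ 2)⁻¹) ^ 2 := by gcongr
      _ = K0 ^ 2 * ((1 + (2 * π * ξ) ^ 2)⁻¹ * (1 + (2 * π * ξ) ^ 2)⁻¹) := by ring
      _ ≤ K0 ^ 2 * ((1 + (2 * π * ξ) ^ 2)⁻¹ * 1) := by gcongr
      _ = K0 ^ 2 * (1 + (2 * π * ξ) ^ 2)⁻¹ := by ring
  -- square integrability of fc
  have hfc2 : Integrable (fun t => ‖fc t‖ ^ 2) := by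
    have : Integrable (fun t => K0 * ‖fc t‖) := hfci.norm.const_mul K0
    refine this.mono' (hfcc.norm.pow 2).aestronglyMeasurable (Eventually.of_forall fun t => ?_)
    rw [Real.norm_eq_abs, abs_of_nonneg (by positivity), sq]
    refine mul_le_mul_of_nonneg_right ?_ (norm_nonneg _)
    by_cases ht : t ≤ 0
    · rw [hfc]; simp only [hG0 t ht, zero_mul, norm_zero]; exact hK
    · push Not at ht
      rw [hfc]
      simp only [norm_mul, Complex.norm_exp]
      have h3 : (-(c : ℂ) * t).re = -(c * t) := by simp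
      rw [h3]
      calc ‖G t‖ * Real.exp (-(c * t)) ≤ K0 * 1 := by
            refine mul_le_mul (hGb t) ?_ (Real.exp_pos _).le hK
            rw [Real.exp_le_one_iff]
            have := mul_pos hc0 ht
            linarith
        _ = K0 := mul_one _
  rw [intervalIntegral.integral_of_le hR]
  have hstep : ∫ t in Set.Ioc 0 R, ‖G t‖ ^ 2 ≤ ∫ t in Set.Ioc 0 R, 2 * ‖fc t‖ ^ 2 := by
    refine setIntegral_mono_on ?_ ?_ measurableSet_Ioc ?_
    · exact ((hGc.norm.pow 2).integrableOn_Icc (a := 0) (b := R)).mono_set Set.Ioc_subset_Icc_self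
    · exact (hfc2.const_mul 2).integrableOn
    · intro t ht
      rw [hfc]
      simp only [norm_mul, Complex.norm_exp]
      have h3 : (-(c : ℂ) * t).re = -(c * t) := by simp
      rw [h3]
      have h5 : Real.exp (c * t) * Real.exp (c * t) ≤ 2 := by
        rw [← Real.exp_add]
        refine (Real.exp_le_exp.2 ?_).trans exp_half_le
        have : c * t ≤ c * R := mul_le_mul_of_nonneg_left ht.2 hc0.le
        linarith
      have h6 : Real.exp (-(c * t)) * Real.exp (c * t) = 1 := by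
        rw [← Real.exp_add]; simp
      have h7 : ‖G t‖ ^ 2 = (‖G t‖ * Real.exp (-(c * t))) ^ 2 * (Real.exp (c * t) * Real.exp (c * t)) := by
        calc ‖G t‖ ^ 2 = ‖G t‖ ^ 2 * ((Real.exp (-(c * t)) * Real.exp (c * t)) ^ 2) := by rw [h6]; ring
          _ = _ := by ring
      rw [h7]
      nlinarith [sq_nonneg (‖G t‖ * Real.exp (-(c * t)))]
  refine hstep.trans ?_
  rw [integral_const_mul]
  have hstep2 : ∫ t in Set.Ioc 0 R, ‖fc t‖ ^ 2 ≤ ∫ t, ‖fc t‖ ^ 2 :=
    setIntegral_le_integral hfc2 (Eventually.of_forall fun _ => by positivity)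
  calc 2 * ∫ t in Set.Ioc 0 R, ‖fc t‖ ^ 2 ≤ 2 * (K0 ^ 2 * (1 / 2)) := by
        refine mul_le_mul_of_nonneg_left ?_ (by norm_num)
        exact hstep2.trans (hP.le.trans hψ2)
    _ = K0 ^ 2 := by ring

end Pool.Agent.R273.MK
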