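import Mathlib

/-!
Part MK-E of the project for MP_07db0e_nt: Laplace transform of an exponential series.
-/

set_option autoImplicit false

namespace Pool.Agent.R273.MK

open MeasureTheory Filter Topology Complex
open scoped Real

lemma norm_pow_exp (n : ℕ) (p : ℂ) (t : ℝ) (ht : 0 < t) :
    ‖(t : ℂ) ^ n * cexp (-p * t)‖ = t ^ (n : ℝ) * Real.exp (-p.re * t) := by
  rw [norm_mul, norm_pow, Complex.norm_exp, Complex.norm_real, Real.norm_eq_abs, abs_of_pos ht,
    Real.rpow_natCast]
  congr 2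
  simp

lemma integrableOn_pow_exp (n : ℕ) (p : ℂ) (hp : 0 < p.re) :
    IntegrableOn (fun t : ℝ => (t : ℂ) ^ n * cexp (-p * t)) (Set.Ioi 0) := by
  have h := integrableOn_rpow_mul_exp_neg_mul_rpow (p := 1) (s := (n : ℝ)) (b := p.re)
    (by have : (0 : ℝ) ≤ n := Nat.cast_nonneg n
        linarith) one_pos hp
  refine Integrable.mono' h ?_ ?_
  · exact (Continuous.aestronglyMeasurable (by fun_prop))
  · refine (ae_restrict_iff' measurableSet_Ioi).2 (Eventually.of_forall fun t ht => ?_)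
    rw [norm_pow_exp n p t ht, Real.rpow_one]

lemma integral_pow_exp (p : ℂ) (hp : 0 < p.re) : ∀ n : ℕ,
    ∫ t : ℝ in Set.Ioi 0, (t : ℂ) ^ n * cexp (-p * t) = (n.factorial : ℂ) * (p⁻¹) ^ (n + 1) := by
  have hp0 : p ≠ 0 := by
    intro h; rw [h] at hp; simp at hp
  intro n
  induction n with
  | zero =>
    have := integral_exp_mul_complex_Ioi (a := -p) (by simpa using hp) 0
    simp only [pow_zero, one_mul]
    rw [this]
    simp
  | succ n ih =>
    have hu : ∀ x ∈ Set.Ioi (0 : ℝ), HasDerivAt (fun t : ℝ => (t : ℂ) ^ (n + 1)) (((n + 1 : ℕ) : ℂ) * (x : ℂ) ^ n) x := by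
      intro x _
      have := (Complex.ofRealCLM.hasDerivAt (x := x)).pow (n + 1)
      refine this.congr_deriv ?_
      simp
    have hv : ∀ x ∈ Set.Ioi (0 : ℝ), HasDerivAt (fun t : ℝ => -p⁻¹ * cexp (-p * t)) (cexp (-p * x)) x := by
      intro x _
      have h1 : HasDerivAt (fun t : ℝ => -p * (t : ℂ)) (-p) x := by
        have := (Complex.ofRealCLM.hasDerivAt (x := x)).const_mul (-p)
        refine this.congr_deriv ?_
        simp
      refine (h1.cexp.const_mul (-p⁻¹)).congr_deriv ?_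
      field_simp
    have hlim : Tendsto ((fun t : ℝ => (t : ℂ) ^ (n + 1)) * (fun t : ℝ => -p⁻¹ * cexp (-p * t))) atTop (𝓝 0) := by
      have h := (tendsto_rpow_mul_exp_neg_mul_atTop_nhds_zero ((n + 1 : ℕ) : ℝ) p.re hp).const_mul ‖p⁻¹‖
      rw [mul_zero] at h
      refine squeeze_zero_norm' ?_ h
      filter_upwards [eventually_gt_atTop 0] with t ht
      have := norm_pow_exp (n + 1) p t ht
      simp only [Pi.mul_apply]
      rw [← this, ← norm_mul]
      apply le_of_eq
      rw [← norm_neg]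
      congr 1
      ring
    have hzero : Tendsto ((fun t : ℝ => (t : ℂ) ^ (n + 1)) * (fun t : ℝ => -p⁻¹ * cexp (-p * t)))
        (𝓝[>] 0) (𝓝 0) := by
      have hc : Continuous ((fun t : ℝ => (t : ℂ) ^ (n + 1)) * (fun t : ℝ => -p⁻¹ * cexp (-p * t))) := by
        apply Continuous.mul <;> fun_prop
      have := hc.tendsto 0
      simp only [Pi.mul_apply, Complex.ofReal_zero, ne_eq, Nat.succ_ne_zero, not_false_eq_true,
        zero_pow, zero_mul] at this
      exact this.mono_left nhdsWithin_le_nhds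
    have hi1 : IntegrableOn ((fun t : ℝ => (t : ℂ) ^ (n + 1)) * (fun x : ℝ => cexp (-p * x))) (Set.Ioi 0) :=
      integrableOn_pow_exp (n + 1) p hp
    have hi2 : IntegrableOn ((fun x : ℝ => ((n + 1 : ℕ) : ℂ) * (x : ℂ) ^ n) * (fun t : ℝ => -p⁻¹ * cexp (-p * t))) (Set.Ioi 0) := by
      have := (integrableOn_pow_exp n p hp).const_mul (((n + 1 : ℕ) : ℂ) * (-p⁻¹))
      refine this.congr ?_
      refine Eventually.of_forall fun t => ?_
      simp only [Pi.mul_apply]
      ring
    have := integral_Ioi_mul_deriv_eq_deriv_mul hu hv hi1 hi2 hzero hlim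
    rw [this]
    have h3 : (fun x : ℝ => ((n + 1 : ℕ) : ℂ) * (x : ℂ) ^ n * (-p⁻¹ * cexp (-p * x))) =
        fun x : ℝ => (((n + 1 : ℕ) : ℂ) * (-p⁻¹)) * ((x : ℂ) ^ n * cexp (-p * x)) := by
      funext x; ring
    rw [h3, integral_const_mul, ih, Nat.factorial_succ]
    push_cast
    ring

/-- the exponential series with coefficients `a` -/
noncomputable def LL (a : ℕ → ℂ) (t : ℝ) : ℂ := ∑' n : ℕ, a n / (n.factorial : ℂ) * (t : ℂ) ^ n

section series
variable (a : ℕ → ℂ) (C : ℝ) (ha : ∀ n, ‖a n‖ ≤ C * 8 ^ n)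
include ha

lemma term_bound (t : ℝ) (n : ℕ) :
    ‖a n / (n.factorial : ℂ) * (t : ℂ) ^ n‖ ≤ C * ((8 * |t|) ^ n / (n.factorial : ℝ)) := by
  rw [norm_mul, norm_div, norm_pow, Complex.norm_real, Real.norm_eq_abs, Complex.norm_natCast]
  calc ‖a n‖ / (n.factorial : ℝ) * |t| ^ n ≤ C * 8 ^ n / (n.factorial : ℝ) * |t| ^ n := by
        gcongr
        exact ha n
    _ = _ := by rw [mul_pow]; ring

lemma hasSum_bound (t : ℝ) : HasSum (fun n : ℕ => C * ((8 * |t|) ^ n / (n.factorial : ℝ)))
    (C * Real.exp (8 * |t|)) := by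
  have := NormedSpace.expSeries_div_hasSum_exp (8 * |t|)
  rw [← Real.exp_eq_exp_ℝ] at this
  exact this.mul_left C

lemma hasSum_LL (t : ℝ) : HasSum (fun n : ℕ => a n / (n.factorial : ℂ) * (t : ℂ) ^ n) (LL a t) := by
  apply Summable.hasSum
  exact Summable.of_norm_bounded (hasSum_bound a C ha t).summable (term_bound a C ha t)

lemma norm_LL (t : ℝ) : ‖LL a t‖ ≤ C * Real.exp (8 * |t|) :=
  (hasSum_LL a C ha t).norm_le_of_bounded (hasSum_bound a C ha t) (term_bound a C ha t)

lemma C_nonneg : 0 ≤ C := by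
  have := (norm_nonneg _).trans (ha 0)
  simpa using this

lemma continuous_LL : Continuous (LL a) := by
  have hC := C_nonneg a C ha
  rw [continuous_iff_continuousAt]
  intro t
  have h1 : ContinuousOn (LL a) (Set.Ioo (-(|t| + 1)) (|t| + 1)) := by
    unfold LL
    refine continuousOn_tsum (u := fun n : ℕ => C * ((8 * |(|t| + 1)|) ^ n / (n.factorial : ℝ)))
      (fun n => by fun_prop) (hasSum_bound a C ha (|t| + 1)).summable ?_
    intro n x hx
    refine (term_bound a C ha x n).trans ?_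
    have hx' : |x| ≤ |(|t| + 1)| := by
      rw [abs_of_nonneg (by positivity : (0 : ℝ) ≤ |t| + 1)]
      exact (abs_lt.2 hx).le
    gcongr
  refine h1.continuousAt ?_
  apply Ioo_mem_nhds
  · have := neg_abs_le t; linarith
  · have := le_abs_self t; linarith

lemma laplace_LL (p : ℂ) (hp : 8 < p.re) (b : ℂ) (hb : HasSum (fun n => a n * (p⁻¹) ^ n) b) :
    ∫ t : ℝ in Set.Ioi 0, LL a t * cexp (-p * t) = b * p⁻¹ := by
  have hC := C_nonneg a C ha
  have hp0 : 0 < p.re := by linarith
  set F : ℕ → ℝ → ℂ := fun n t => (a n / (n.factorial : ℂ)) * ((t : ℂ) ^ n * cexp (-p * t)) with hF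
  have hFi : ∀ n, Integrable (F n) (volume.restrict (Set.Ioi 0)) := fun n =>
    (integrableOn_pow_exp n p hp0).const_mul _
  have hnorm : ∀ n, ∫ t in Set.Ioi (0 : ℝ), ‖F n t‖ = ‖a n‖ * (p.re⁻¹) ^ (n + 1) := by
    intro n
    have h1 : ∫ t in Set.Ioi (0 : ℝ), ‖F n t‖ =
        ∫ t in Set.Ioi (0 : ℝ), (‖a n‖ / (n.factorial : ℝ)) * (t ^ n * Real.exp (-p.re * t)) := by
      refine setIntegral_congr_fun measurableSet_Ioi fun t ht => ?_
      simp only [hF]
      rw [norm_mul, norm_pow_exp n p t ht, norm_div, Complex.norm_natCast, Real.rpow_natCast]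
    rw [h1, integral_const_mul]
    have h2 := integral_pow_exp (p.re : ℂ) (by simpa using hp0) n
    have h3 : ∫ t in Set.Ioi (0 : ℝ), (t ^ n * Real.exp (-p.re * t)) = (n.factorial : ℝ) * (p.re⁻¹) ^ (n + 1) := by
      apply Complex.ofReal_injective
      rw [← integral_complex_ofReal]
      push_cast

      exact h2
    rw [h3]
    have : (n.factorial : ℝ) ≠ 0 := by positivity
    field_simp
  have hsum : Summable fun n => ∫ t in Set.Ioi (0 : ℝ), ‖F n t‖ := by
    simp only [hnorm]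
    have hg : Summable fun n : ℕ => C * p.re⁻¹ * (8 * p.re⁻¹) ^ n := by
      refine (summable_geometric_of_lt_one (by positivity) ?_).mul_left _
      rw [← div_eq_mul_inv, div_lt_one hp0]
      exact hp
    refine Summable.of_nonneg_of_le (fun n => by positivity) (fun n => ?_) hg
    calc ‖a n‖ * (p.re⁻¹) ^ (n + 1) ≤ C * 8 ^ n * (p.re⁻¹) ^ (n + 1) := by
          gcongr
          exact ha n
      _ = C * p.re⁻¹ * (8 * p.re⁻¹) ^ n := by rw [mul_pow]; ring
  have hmain := hasSum_integral_of_summable_integral_norm hFi hsum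
  have hval : ∀ n, ∫ t in Set.Ioi (0 : ℝ), F n t = a n * (p⁻¹) ^ n * p⁻¹ := by
    intro n
    simp only [hF]
    rw [integral_const_mul, integral_pow_exp p hp0 n]
    have : (n.factorial : ℂ) ≠ 0 := by exact_mod_cast n.factorial_ne_zero
    field_simp
    ring
  simp only [hval] at hmain
  have huniq := hmain.unique (hb.mul_right p⁻¹)
  rw [← huniq]
  congr 1
  funext t
  have h5 := (hasSum_LL a C ha t).mul_right (cexp (-p * t))
  rw [← h5.tsum_eq]
  congr 1
  funext n
  simp only [hF]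
  ring

end series

end Pool.Agent.R273.MK
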