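import Pool.Agent.R273.MK.E1
import Pool.Agent.R273.MK.E2

/-!
Part MK-E of the project for MP_07db0e_nt: the theorem `borel`.
-/

set_option autoImplicit false

namespace Pool.Agent.R273.MK

open MeasureTheory Filter Topology Complex
open scoped Real

lemma one_add_ne (s : ℂ) (hs : 0 < s.re) : (1 + s) ≠ 0 := by
  intro h
  have := congrArg Complex.re h
  simp at this
  linarith

lemma norm_sq_ge (s : ℂ) (hs : 0 < s.re) : 1 + ‖s‖ ^ 2 ≤ ‖1 + s‖ ^ 2 := by
  rw [← Complex.normSq_eq_norm_sq, ← Complex.normSq_eq_norm_sq, Complex.normSq_apply,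
    Complex.normSq_apply]
  simp
  nlinarith

lemma integral_of_zero_left (g : ℝ → ℂ) (h0 : ∀ t ≤ 0, g t = 0) :
    ∫ t : ℝ, g t = ∫ t : ℝ in Set.Ioi 0, g t := by
  rw [← integral_indicator measurableSet_Ioi]
  congr 1
  ext t
  by_cases ht : 0 < t
  · rw [Set.indicator_of_mem (show t ∈ Set.Ioi (0 : ℝ) from ht)]
  · rw [Set.indicator_of_notMem (show t ∉ Set.Ioi (0 : ℝ) from ht), h0 t (not_lt.1 ht)]

section main
variable (C : ℝ) (a : ℕ → ℂ) (B : ℂ → ℂ) (β : ℂ) (ha : ∀ n, ‖a n‖ ≤ C * 8 ^ n)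
  (hB : DifferentiableOn ℂ B {p | 1 < p.re}) (hBC : ∀ p : ℂ, 1 < p.re → ‖B p‖ ≤ C)
  (hsum : ∀ p : ℂ, 1 < p.re → 8 < ‖p‖ → HasSum (fun n => a n * (p⁻¹) ^ n) (B p))
  (hβ : ∀ p : ℂ, 1 < p.re → ‖B p - β‖ ≤ C * ‖p - 1‖)

include ha hBC hsum in
lemma B_sub_a0 (p : ℂ) (hp : 1 < p.re) : ‖B p - a 0‖ ≤ 32 * C / ‖p‖ := by
  have hC := C_nonneg a C ha
  have hpn : 1 < ‖p‖ := hp.trans_le (Complex.re_le_norm p)
  have hpos : 0 < ‖p‖ := by linarith
  by_cases h16 : ‖p‖ < 16
  · have h1 : ‖B p - a 0‖ ≤ 2 * C := by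
      refine (norm_sub_le _ _).trans ?_
      have := ha 0
      have := hBC p hp
      simp only [pow_zero, mul_one] at *
      linarith
    refine h1.trans ?_
    rw [le_div_iff₀ hpos]
    nlinarith
  · push Not at h16
    have hs := hsum p hp (by linarith)
    have hs1 := (hasSum_nat_add_iff' 1).2 hs
    simp only [Finset.range_one, Finset.sum_singleton, pow_zero, mul_one] at hs1
    set x : ℝ := 8 / ‖p‖ with hx
    have hx0 : 0 < x := by positivity
    have hx1 : x ≤ 1 / 2 := by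
      rw [hx, div_le_div_iff₀ hpos (by norm_num)]
      linarith
    have hg : HasSum (fun n : ℕ => C * x * x ^ n) (C * x * (1 - x)⁻¹) :=
      (hasSum_geometric_of_lt_one hx0.le (by linarith)).mul_left _
    have hb := hs1.norm_le_of_bounded hg (fun n => by
      rw [norm_mul, norm_pow, norm_inv]
      calc ‖a (n + 1)‖ * ‖p‖⁻¹ ^ (n + 1) ≤ C * 8 ^ (n + 1) * ‖p‖⁻¹ ^ (n + 1) := by
            gcongr
            exact ha _
        _ = C * x * x ^ n := by rw [hx, div_eq_mul_inv]; ring)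
    refine hb.trans ?_
    have h2 : (1 - x)⁻¹ ≤ 2 := by
      rw [inv_le_comm₀ (by linarith) (by norm_num)]
      linarith
    calc C * x * (1 - x)⁻¹ ≤ C * x * 2 := by gcongr
      _ = 16 * C / ‖p‖ := by rw [hx]; ring
      _ ≤ 32 * C / ‖p‖ := by gcongr; linarith

include ha hB hBC hsum in
lemma norm_h (t : ℝ) (ht : 0 ≤ t) : ‖LL a t * cexp (-t)‖ ≤ 33 * C := by
  have hC := C_nonneg a C ha
  set G : ℝ → ℂ := fun t => (LL a (max t 0) - a 0) * cexp (-t) with hG
  have hLL0 : LL a 0 = a 0 := by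
    unfold LL
    rw [tsum_eq_single 0]
    · simp
    · intro n hn; simp [hn]
  have hcont := continuous_LL a C ha
  have hGc : Continuous G := by
    refine ((hcont.comp (by fun_prop)).sub continuous_const).mul (by fun_prop)
  have hG0 : ∀ t ≤ 0, G t = 0 := by
    intro t ht
    simp only [hG, max_eq_right ht, hLL0, sub_self, zero_mul]
  have hGM : ∀ t, 0 ≤ t → ‖G t‖ ≤ (2 * C) * Real.exp (8 * t) := by
    intro t ht
    simp only [hG, max_eq_left ht, norm_mul, Complex.norm_exp]
    have h1 : ‖LL a t - a 0‖ ≤ 2 * C * Real.exp (8 * t) := by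
      refine (norm_sub_le _ _).trans ?_
      have h2 := norm_LL a C ha t
      rw [abs_of_nonneg ht] at h2
      have h3 : ‖a 0‖ ≤ C * Real.exp (8 * t) := by
        have := ha 0
        simp only [pow_zero, mul_one] at this
        refine this.trans ?_
        have : 1 ≤ Real.exp (8 * t) := Real.one_le_exp (by positivity)
        nlinarith
      linarith
    have h4 : Real.exp ((-(t : ℂ)).re) ≤ 1 := by
      rw [Real.exp_le_one_iff]
      simpa using ht
    calc ‖LL a t - a 0‖ * Real.exp ((-(t : ℂ)).re) ≤ 2 * C * Real.exp (8 * t) * 1 := by gcongr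
      _ = _ := mul_one _
  set l : ℂ → ℂ := fun s => (B (1 + s) - a 0) * (1 + s)⁻¹ with hl
  have hld : DifferentiableOn ℂ l {s | 0 < s.re} := by
    refine DifferentiableOn.mul (DifferentiableOn.sub ?_ (by fun_prop)) ?_
    · refine hB.comp (by fun_prop) ?_
      intro s hs
      have : 0 < s.re := hs
      simp only [Set.mem_ofPred_eq, Complex.add_re, Complex.one_re]
      linarith
    · refine DifferentiableOn.inv (by fun_prop) ?_
      intro s hs
      exact one_add_ne s hs
  have hlb : ∀ s : ℂ, 0 < s.re → ‖l s‖ ≤ (32 * C) / (1 + ‖s‖ ^ 2) := by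
    intro s hs
    have h1 := B_sub_a0 C a B ha hBC hsum (1 + s) (by simp; exact hs)
    have h2 := norm_sq_ge s hs
    have h3 : 0 < ‖1 + s‖ := norm_pos_iff.2 (one_add_ne s hs)
    simp only [hl, norm_mul, norm_inv]
    calc ‖B (1 + s) - a 0‖ * ‖1 + s‖⁻¹ ≤ 32 * C / ‖1 + s‖ * ‖1 + s‖⁻¹ := by gcongr
      _ = 32 * C / ‖1 + s‖ ^ 2 := by field_simp
      _ ≤ 32 * C / (1 + ‖s‖ ^ 2) := by gcongr
  have hlap : ∀ y : ℝ, ∫ t : ℝ, G t * cexp (-((9 : ℝ) + y * I) * t) = l ((9 : ℝ) + y * I) := by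
    intro y
    set p : ℂ := 1 + ((9 : ℝ) + y * I) with hp
    have hpre : p.re = 10 := by simp [hp]; norm_num
    have hpn : 8 < ‖p‖ := by
      have := Complex.re_le_norm p
      rw [hpre] at this
      linarith
    have hp0 : p ≠ 0 := by
      intro h; rw [h] at hpre; simp at hpre
    rw [integral_of_zero_left _ (fun t ht => by rw [hG0 t ht, zero_mul])]
    have h1 : ∫ t : ℝ in Set.Ioi 0, G t * cexp (-((9 : ℝ) + y * I) * t) =
        ∫ t : ℝ in Set.Ioi 0, (LL a t * cexp (-p * t) - a 0 * cexp (-p * t)) := by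
      refine setIntegral_congr_fun measurableSet_Ioi fun t ht => ?_
      have ht0 : (0 : ℝ) < t := ht
      simp only [hG, max_eq_left ht0.le]
      rw [mul_assoc, ← Complex.exp_add, ← sub_mul]
      congr 2
      rw [hp]; ring
    rw [h1, integral_sub]
    · have hb := hsum p (by rw [hpre]; norm_num) hpn
      rw [laplace_LL a C ha p (by rw [hpre]; norm_num) (B p) hb]
      have h2 := integral_pow_exp p (by rw [hpre]; norm_num) 0
      simp only [pow_zero, one_mul, Nat.factorial_zero, Nat.cast_one, zero_add, pow_one] at h2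
      rw [integral_const_mul, h2]
      simp only [hl]
      rw [← hp]
      ring
    · -- integrability of LL exp
      have hb : Integrable (fun t : ℝ => C * Real.exp (-2 * t)) (volume.restrict (Set.Ioi 0)) :=
        (exp_neg_integrableOn_Ioi 0 (by norm_num : (0 : ℝ) < 2)).const_mul C
      refine hb.mono' ?_ ?_
      · exact (hcont.mul (by fun_prop)).aestronglyMeasurable
      · refine (ae_restrict_iff' measurableSet_Ioi).2 (Eventually.of_forall fun t ht => ?_)
        have ht0 : (0 : ℝ) < t := ht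
        rw [norm_mul, Complex.norm_exp]
        have h2 := norm_LL a C ha t
        rw [abs_of_nonneg ht0.le] at h2
        have h3 : (-p * t).re = -10 * t := by simp [hpre]
        rw [h3]
        calc ‖LL a t‖ * Real.exp (-10 * t) ≤ C * Real.exp (8 * t) * Real.exp (-10 * t) := by gcongr
          _ = C * Real.exp (-2 * t) := by
              rw [mul_assoc, ← Real.exp_add]; ring_nf
    · have := (integrableOn_pow_exp 0 p (by rw [hpre]; norm_num)).const_mul (a 0)
      simpa using this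
  have hfin := (lemL G l (32 * C) (2 * C) (by positivity) hld hlb hGc hG0 hGM hlap).1 t
  have h1 : LL a t * cexp (-t) = G t + a 0 * cexp (-t) := by
    simp only [hG, max_eq_left ht]
    ring
  rw [h1]
  refine (norm_add_le _ _).trans ?_
  have h2 : ‖a 0 * cexp (-t)‖ ≤ C * 1 := by
    rw [norm_mul, Complex.norm_exp]
    have h3 := ha 0
    simp only [pow_zero, mul_one] at h3
    have h4 : Real.exp ((-(t : ℂ)).re) ≤ 1 := by
      rw [Real.exp_le_one_iff]
      simpa using ht
    gcongr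
  linarith

include hBC hβ in
lemma norm_beta : ‖β‖ ≤ 2 * C := by
  have h1 := hBC 2 (by norm_num)
  have h2 := hβ 2 (by norm_num)
  have h3 : ‖(2 : ℂ) - 1‖ = 1 := by norm_num
  rw [h3] at h2
  have h4 : β = B 2 - (B 2 - β) := by ring
  rw [h4]
  refine (norm_sub_le _ _).trans ?_
  linarith

include ha hB hBC hsum hβ in
theorem main (H : ℝ → ℂ) (hH : ∀ T, H T = (∫ t in (0 : ℝ)..T, LL a t * cexp (-t))
        - β * (1 - cexp (-T))) :
    (∀ S T, 0 ≤ S → 0 ≤ T → ‖H T - H S‖ ≤ 35 * C * |T - S|) ∧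
      (∀ R, 0 ≤ R → ∫ T in (0 : ℝ)..R, ‖H T‖ ^ 2 ≤ (6 * C) ^ 2) := by
  have hC := C_nonneg a C ha
  have hcont := continuous_LL a C ha
  have hhc : Continuous (fun t : ℝ => LL a t * cexp (-t)) := hcont.mul (by fun_prop)
  have hderiv : ∀ T : ℝ, HasDerivAt H (LL a T * cexp (-T) - β * cexp (-T)) T := by
    intro T
    have h1 : HasDerivAt (fun T : ℝ => ∫ t in (0 : ℝ)..T, LL a t * cexp (-t)) (LL a T * cexp (-T)) T :=
      intervalIntegral.integral_hasDerivAt_right (hhc.intervalIntegrable _ _)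
        (hhc.stronglyMeasurableAtFilter _ _) hhc.continuousAt
    have h2 : HasDerivAt (fun T : ℝ => β * (1 - cexp (-T))) (β * cexp (-T)) T := by
      have h3 : HasDerivAt (fun T : ℝ => -(T : ℂ)) (-1) T := by
        have := (Complex.ofRealCLM.hasDerivAt (x := T)).neg
        refine this.congr_deriv ?_
        simp
      refine ((h3.cexp.const_sub 1).const_mul β).congr_deriv ?_
      ring
    have h4 := h1.sub h2
    refine h4.congr_of_eventuallyEq (Eventually.of_forall fun T => ?_)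
    simp only [Pi.sub_apply]
    exact hH T
  have hHc : Continuous H := continuous_iff_continuousAt.2 fun T => (hderiv T).continuousAt
  have hH0 : H 0 = 0 := by rw [hH]; simp
  have hdb : ∀ T : ℝ, 0 ≤ T → ‖LL a T * cexp (-T) - β * cexp (-T)‖ ≤ 35 * C := by
    intro T hT
    refine (norm_sub_le _ _).trans ?_
    have h1 := norm_h C a B ha hB hBC hsum T hT
    have h2 : ‖β * cexp (-T)‖ ≤ 2 * C * 1 := by
      rw [norm_mul, Complex.norm_exp]
      have h3 := norm_beta C B β hBC hβ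
      have h4 : Real.exp ((-(T : ℂ)).re) ≤ 1 := by
        rw [Real.exp_le_one_iff]
        simpa using hT
      gcongr
    linarith
  have hLip : ∀ S T, 0 ≤ S → 0 ≤ T → ‖H T - H S‖ ≤ 35 * C * |T - S| := by
    intro S T hS hT
    have := Convex.norm_image_sub_le_of_norm_hasDerivWithin_le (f := H)
      (f' := fun T : ℝ => LL a T * cexp (-T) - β * cexp (-T)) (s := Set.Ici 0) (C := 35 * C)
      (fun x _ => (hderiv x).hasDerivWithinAt) (fun x hx => hdb x hx) (convex_Ici 0) hS hT
    simpa [Real.norm_eq_abs] using this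
  refine ⟨hLip, ?_⟩
  set G : ℝ → ℂ := fun t => H (max t 0) with hG
  have hGc : Continuous G := hHc.comp (by fun_prop)
  have hG0 : ∀ t ≤ 0, G t = 0 := by
    intro t ht
    simp only [hG, max_eq_right ht, hH0]
  have hHb : ∀ t, 0 ≤ t → ‖H t‖ ≤ 35 * C * t := by
    intro t ht
    have := hLip 0 t le_rfl ht
    rw [hH0, sub_zero, sub_zero, abs_of_nonneg ht] at this
    exact this
  have hGM : ∀ t, 0 ≤ t → ‖G t‖ ≤ (35 * C) * Real.exp (8 * t) := by
    intro t ht
    simp only [hG, max_eq_left ht]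
    refine (hHb t ht).trans ?_
    have : t ≤ Real.exp (8 * t) := by
      have h1 := Real.add_one_le_exp (8 * t)
      linarith
    gcongr
  set l : ℂ → ℂ := fun s => (B (1 + s) - β) * (1 + s)⁻¹ * s⁻¹ with hl
  have hld : DifferentiableOn ℂ l {s | 0 < s.re} := by
    refine DifferentiableOn.mul (DifferentiableOn.mul (DifferentiableOn.sub ?_ (by fun_prop)) ?_) ?_
    · refine hB.comp (by fun_prop) ?_
      intro s hs
      have : 0 < s.re := hs
      simp only [Set.mem_ofPred_eq, Complex.add_re, Complex.one_re]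
      linarith
    · refine DifferentiableOn.inv (by fun_prop) ?_
      intro s hs
      exact one_add_ne s hs
    · refine DifferentiableOn.inv (by fun_prop) ?_
      intro s hs h0
      have : 0 < s.re := hs
      rw [h0] at this
      simp at this
  have hlb : ∀ s : ℂ, 0 < s.re → ‖l s‖ ≤ (6 * C) / (1 + ‖s‖ ^ 2) := by
    intro s hs
    have hre : 1 < (1 + s).re := by simp; exact hs
    have h1 := hβ (1 + s) hre
    rw [add_sub_cancel_left] at h1
    have h1' : ‖B (1 + s) - β‖ ≤ 3 * C := by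
      refine (norm_sub_le _ _).trans ?_
      have := hBC _ hre
      have := norm_beta C B β hBC hβ
      linarith
    have h2 := norm_sq_ge s hs
    have hs0 : 0 < ‖s‖ := by
      rw [norm_pos_iff]; intro h; rw [h] at hs; simp at hs
    have h3 : 0 < ‖1 + s‖ := norm_pos_iff.2 (one_add_ne s hs)
    have h4 : 1 ≤ ‖1 + s‖ := by nlinarith
    have h5 : ‖s‖ ≤ ‖1 + s‖ := by nlinarith
    simp only [hl, norm_mul, norm_inv]
    rw [le_div_iff₀ (by positivity)]
    have hgoal : ‖B (1 + s) - β‖ * (1 + ‖s‖ ^ 2) ≤ 6 * C * (‖s‖ * ‖1 + s‖) := by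
      by_cases hs1 : ‖s‖ ≤ 1
      · have h6 : 1 + ‖s‖ ^ 2 ≤ 2 := by nlinarith
        calc ‖B (1 + s) - β‖ * (1 + ‖s‖ ^ 2) ≤ (C * ‖s‖) * 2 := by gcongr
          _ ≤ 6 * C * (‖s‖ * 1) := by nlinarith [mul_nonneg hC hs0.le]
          _ ≤ 6 * C * (‖s‖ * ‖1 + s‖) := by gcongr
      · push Not at hs1
        have h6 : 1 + ‖s‖ ^ 2 ≤ 2 * (‖s‖ * ‖s‖) := by nlinarith
        calc ‖B (1 + s) - β‖ * (1 + ‖s‖ ^ 2) ≤ (3 * C) * (2 * (‖s‖ * ‖s‖)) := by gcongr
          _ ≤ 6 * C * (‖s‖ * ‖1 + s‖) := by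
              have : ‖s‖ * ‖s‖ ≤ ‖s‖ * ‖1 + s‖ := by gcongr
              nlinarith
    calc ‖B (1 + s) - β‖ * ‖1 + s‖⁻¹ * ‖s‖⁻¹ * (1 + ‖s‖ ^ 2)
        = (‖B (1 + s) - β‖ * (1 + ‖s‖ ^ 2)) * (‖1 + s‖⁻¹ * ‖s‖⁻¹) := by ring
      _ ≤ (6 * C * (‖s‖ * ‖1 + s‖)) * (‖1 + s‖⁻¹ * ‖s‖⁻¹) := by gcongr
      _ = 6 * C := by field_simp
  have hlap : ∀ y : ℝ, ∫ t : ℝ, G t * cexp (-((9 : ℝ) + y * I) * t) = l ((9 : ℝ) + y * I) := by
    intro y
    set s : ℂ := ((9 : ℝ) + y * I) with hs
    have hsre : s.re = 9 := by simp [hs]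
    have hs0 : s ≠ 0 := by
      intro h; rw [h] at hsre; simp at hsre
    set p : ℂ := 1 + s with hp
    have hpre : p.re = 10 := by simp [hp, hsre]; norm_num
    have hpn : 8 < ‖p‖ := by
      have := Complex.re_le_norm p
      rw [hpre] at this
      linarith
    have hp0 : p ≠ 0 := by
      intro h; rw [h] at hpre; simp at hpre
    rw [integral_of_zero_left _ (fun t ht => by rw [hG0 t ht, zero_mul])]
    have h1 : ∫ t : ℝ in Set.Ioi 0, G t * cexp (-s * t) =
        ∫ t : ℝ in Set.Ioi 0, H t * cexp (-s * t) := by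
      refine setIntegral_congr_fun measurableSet_Ioi fun t ht => ?_
      have ht0 : (0 : ℝ) < t := ht
      simp only [hG, max_eq_left ht0.le]
    rw [h1]
    have hv : ∀ x ∈ Set.Ioi (0 : ℝ), HasDerivAt (fun t : ℝ => -s⁻¹ * cexp (-s * t)) (cexp (-s * x)) x := by
      intro x _
      have h1 : HasDerivAt (fun t : ℝ => -s * (t : ℂ)) (-s) x := by
        have := (Complex.ofRealCLM.hasDerivAt (x := x)).const_mul (-s)
        refine this.congr_deriv ?_
        simp
      refine (h1.cexp.const_mul (-s⁻¹)).congr_deriv ?_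
      field_simp
    have hexpn : ∀ t : ℝ, ‖cexp (-s * t)‖ = Real.exp (-9 * t) := by
      intro t
      rw [Complex.norm_exp]
      congr 1
      simp [hsre]
    have hi1 : IntegrableOn (H * (fun x : ℝ => cexp (-s * x))) (Set.Ioi 0) := by
      have hb : Integrable (fun t : ℝ => (35 * C) * Real.exp (-1 * t)) (volume.restrict (Set.Ioi 0)) :=
        (exp_neg_integrableOn_Ioi 0 (by norm_num : (0 : ℝ) < 1)).const_mul _
      refine hb.mono' ?_ ?_
      · exact (hHc.mul (by fun_prop)).aestronglyMeasurable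
      · refine (ae_restrict_iff' measurableSet_Ioi).2 (Eventually.of_forall fun t ht => ?_)
        have ht0 : (0 : ℝ) < t := ht
        simp only [Pi.mul_apply]
        rw [norm_mul, hexpn]
        have h2 := hGM t ht0.le
        simp only [hG, max_eq_left ht0.le] at h2
        calc ‖H t‖ * Real.exp (-9 * t) ≤ 35 * C * Real.exp (8 * t) * Real.exp (-9 * t) := by gcongr
          _ = 35 * C * Real.exp (-1 * t) := by
              rw [mul_assoc, ← Real.exp_add]; ring_nf
    have hi2 : IntegrableOn ((fun T : ℝ => LL a T * cexp (-T) - β * cexp (-T)) *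
        (fun t : ℝ => -s⁻¹ * cexp (-s * t))) (Set.Ioi 0) := by
      have hb : Integrable (fun t : ℝ => (35 * C * ‖s⁻¹‖) * Real.exp (-9 * t)) (volume.restrict (Set.Ioi 0)) :=
        (exp_neg_integrableOn_Ioi 0 (by norm_num : (0 : ℝ) < 9)).const_mul _
      refine hb.mono' ?_ ?_
      · exact ((hhc.sub (by fun_prop)).mul (by fun_prop)).aestronglyMeasurable
      · refine (ae_restrict_iff' measurableSet_Ioi).2 (Eventually.of_forall fun t ht => ?_)
        have ht0 : (0 : ℝ) < t := ht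
        simp only [Pi.mul_apply]
        rw [norm_mul, norm_mul, hexpn, norm_neg]
        have h2 := hdb t ht0.le
        calc ‖LL a t * cexp (-t) - β * cexp (-t)‖ * (‖s⁻¹‖ * Real.exp (-9 * t))
            ≤ 35 * C * (‖s⁻¹‖ * Real.exp (-9 * t)) := by gcongr
          _ = _ := by ring
    have hzero : Tendsto (H * (fun t : ℝ => -s⁻¹ * cexp (-s * t))) (𝓝[>] 0) (𝓝 0) := by
      have hc : Continuous (H * (fun t : ℝ => -s⁻¹ * cexp (-s * t))) := by
        apply hHc.mul; fun_prop
      have := hc.tendsto 0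
      simp only [Pi.mul_apply, hH0, zero_mul] at this
      exact this.mono_left nhdsWithin_le_nhds
    have hlim : Tendsto (H * (fun t : ℝ => -s⁻¹ * cexp (-s * t))) atTop (𝓝 0) := by
      have h := (tendsto_rpow_mul_exp_neg_mul_atTop_nhds_zero 0 1 one_pos).const_mul (35 * C * ‖s⁻¹‖)
      rw [mul_zero] at h
      refine squeeze_zero_norm' ?_ h
      filter_upwards [eventually_gt_atTop 0] with t ht
      simp only [Pi.mul_apply, Real.rpow_zero, one_mul]
      rw [norm_mul, norm_mul, hexpn, norm_neg]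
      have h2 := hGM t ht.le
      simp only [hG, max_eq_left ht.le] at h2
      calc ‖H t‖ * (‖s⁻¹‖ * Real.exp (-9 * t)) ≤ 35 * C * Real.exp (8 * t) * (‖s⁻¹‖ * Real.exp (-9 * t)) := by gcongr
        _ = 35 * C * ‖s⁻¹‖ * (Real.exp (8 * t) * Real.exp (-9 * t)) := by ring
        _ = 35 * C * ‖s⁻¹‖ * Real.exp (-1 * t) := by
              rw [← Real.exp_add]; ring_nf
    have hparts := integral_Ioi_mul_deriv_eq_deriv_mul (fun x _ => hderiv x) hv hi1 hi2 hzero hlim
    rw [hparts]
    have h3 : ∀ x : ℝ, (LL a x * cexp (-x) - β * cexp (-x)) * (-s⁻¹ * cexp (-s * x)) =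
        -s⁻¹ * (LL a x * cexp (-p * x) - β * cexp (-p * x)) := by
      intro x
      have : cexp (-p * x) = cexp (-x) * cexp (-s * x) := by
        rw [← Complex.exp_add]
        congr 1
        rw [hp]; ring
      rw [this]; ring
    simp only [h3]
    rw [integral_const_mul, integral_sub]
    · have hb := hsum p (by rw [hpre]; norm_num) hpn
      rw [laplace_LL a C ha p (by rw [hpre]; norm_num) (B p) hb]
      have h2 := integral_pow_exp p (by rw [hpre]; norm_num) 0
      simp only [pow_zero, one_mul, Nat.factorial_zero, Nat.cast_one, zero_add, pow_one] at h2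
      rw [integral_const_mul, h2]
      simp only [hl]
      rw [← hp]
      ring
    · have hb : Integrable (fun t : ℝ => C * Real.exp (-2 * t)) (volume.restrict (Set.Ioi 0)) :=
        (exp_neg_integrableOn_Ioi 0 (by norm_num : (0 : ℝ) < 2)).const_mul C
      refine hb.mono' ?_ ?_
      · exact (hcont.mul (by fun_prop)).aestronglyMeasurable
      · refine (ae_restrict_iff' measurableSet_Ioi).2 (Eventually.of_forall fun t ht => ?_)
        have ht0 : (0 : ℝ) < t := ht
        rw [norm_mul, Complex.norm_exp]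
        have h2 := norm_LL a C ha t
        rw [abs_of_nonneg ht0.le] at h2
        have h3 : (-p * t).re = -10 * t := by simp [hpre]
        rw [h3]
        calc ‖LL a t‖ * Real.exp (-10 * t) ≤ C * Real.exp (8 * t) * Real.exp (-10 * t) := by gcongr
          _ = C * Real.exp (-2 * t) := by
              rw [mul_assoc, ← Real.exp_add]; ring_nf
    · have := (integrableOn_pow_exp 0 p (by rw [hpre]; norm_num)).const_mul β
      simpa using this
  intro R hR
  have hfin := (lemL G l (6 * C) (35 * C) (by positivity) hld hlb hGc hG0 hGM hlap).2 R hR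
  refine le_trans (le_of_eq ?_) hfin
  refine intervalIntegral.integral_congr fun t ht => ?_
  rw [Set.uIcc_of_le hR] at ht
  simp only [hG, max_eq_left ht.1]

end main

theorem borel (C : ℝ) : ∃ K : ℝ, ∀ (a : ℕ → ℂ) (B : ℂ → ℂ) (β : ℂ), (∀ n, ‖a n‖ ≤ C * 8 ^ n) →
    DifferentiableOn ℂ B {p | 1 < p.re} → (∀ p : ℂ, 1 < p.re → ‖B p‖ ≤ C) →
    (∀ p : ℂ, 1 < p.re → 8 < ‖p‖ → HasSum (fun n => a n * (p⁻¹) ^ n) (B p)) →
    (∀ p : ℂ, 1 < p.re → ‖B p - β‖ ≤ C * ‖p - 1‖) →
    ∀ H : ℝ → ℂ, (∀ T, H T = (∫ t in (0 : ℝ)..T, (∑' n : ℕ, a n / (n.factorial : ℂ) * (t : ℂ) ^ n) * Real.exp (-t))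
        - β * (1 - Real.exp (-T))) →
      (∀ S T, 0 ≤ S → 0 ≤ T → ‖H T - H S‖ ≤ K * |T - S|) ∧
      (∀ R, 0 ≤ R → ∫ T in (0 : ℝ)..R, ‖H T‖ ^ 2 ≤ K) := by
  refine ⟨max (35 * C) ((6 * C) ^ 2), ?_⟩
  intro a B β ha hB hBC hsum hβ H hH
  have hH' : ∀ T, H T = (∫ t in (0 : ℝ)..T, LL a t * cexp (-t)) - β * (1 - cexp (-T)) := by
    intro T
    rw [hH T]
    simp only [LL]
    push_cast
    rfl
  obtain ⟨h1, h2⟩ := main C a B β ha hB hBC hsum hβ H hH'
  refine ⟨fun S T hS hT => (h1 S T hS hT).trans ?_, fun R hR => (h2 R hR).trans (le_max_right _ _)⟩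
  exact mul_le_mul_of_nonneg_right (le_max_left _ _) (abs_nonneg _)

end Pool.Agent.R273.MK
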